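import Pool.Agent.H91.Borsuk.Tucker

/-! # Borsuk's odd mapping theorem -/

set_option autoImplicit false

namespace Pool.Agent.H91.Borsuk

open Metric Set Filter Topology

section label

variable {n : ℕ}

open Classical in
/-- choose an index in a set. -/
noncomputable def i0 (hn : 0 < n) (S : Set (Fin n)) : Fin n :=
  if h : S.Nonempty then h.some else ⟨0, hn⟩

theorem i0_mem (hn : 0 < n) {S : Set (Fin n)} (h : S.Nonempty) : i0 hn S ∈ S := by
  unfold i0; rw [dif_pos h]; exact h.some_mem

/-- large coordinates. -/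
def big (ε : ℝ) (z : Fin n → ℝ) : Set (Fin n) := {i | ε ≤ |z i|}

theorem big_neg (ε : ℝ) (z : Fin n → ℝ) : big ε (-z) = big ε z := by
  ext i; simp [big]

open Classical in
/-- label of a vector. -/
noncomputable def labv (hn : 0 < n) (ε : ℝ) (z : Fin n → ℝ) : ℕ :=
  2 * (i0 hn (big ε z)).val + (if z (i0 hn (big ε z)) < 0 then 1 else 0)

theorem labv_div (hn : 0 < n) (ε : ℝ) (z : Fin n → ℝ) :
    labv hn ε z / 2 = (i0 hn (big ε z)).val := by
  unfold labv; split_ifs <;> omega

theorem labv_neg (hn : 0 < n) {ε : ℝ} (hε : 0 < ε) {z : Fin n → ℝ} (hz : (big ε z).Nonempty) :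
    labv hn ε (-z) = comp (labv hn ε z) := by
  have h1 : ε ≤ |z (i0 hn (big ε z))| := i0_mem hn hz
  have h2 : z (i0 hn (big ε z)) ≠ 0 := by
    intro h; rw [h, abs_zero] at h1; linarith
  unfold labv comp
  rw [big_neg]
  simp only [Pi.neg_apply, Left.neg_neg_iff]
  rcases lt_or_gt_of_ne h2 with h | h
  · rw [if_neg (not_lt.mpr h.le), if_pos h]; omega
  · rw [if_pos h, if_neg (not_lt.mpr h.le)]; omega

end label

theorem borsuk_cube {n : ℕ} (g : (Fin n → ℝ) → (Fin n → ℝ)) (hg : ContinuousOn g (closedBall 0 1))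
    (hodd : ∀ y, ‖y‖ = 1 → g (-y) = -g y) : ∃ y ∈ closedBall (0 : Fin n → ℝ) 1, g y = 0 := by
  by_contra hcon
  push Not at hcon
  have hcomp : IsCompact (closedBall (0 : Fin n → ℝ) 1) := isCompact_closedBall 0 1
  obtain ⟨y₀, hy₀, hmin⟩ := hcomp.exists_isMinOn ⟨0, by simp⟩ hg.norm
  set ε : ℝ := ‖g y₀‖ with hεdef
  have hε : 0 < ε := norm_pos_iff.mpr (hcon y₀ hy₀)
  have hlow : ∀ y ∈ closedBall (0 : Fin n → ℝ) 1, ε ≤ ‖g y‖ := fun y hy => hmin hy
  have hn : 0 < n := by
    rcases Nat.eq_zero_or_pos n with h | h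
    · subst h
      exact absurd (Subsingleton.elim (g y₀) 0) (hcon y₀ hy₀)
    · exact h
  have hbig : ∀ y ∈ closedBall (0 : Fin n → ℝ) 1, (big ε (g y)).Nonempty := by
    intro y hy
    by_contra h
    rw [Set.not_nonempty_iff_eq_empty] at h
    have : ‖g y‖ < ε := by
      rw [pi_norm_lt_iff hε]
      intro i
      by_contra h2
      push Not at h2
      have : i ∈ big ε (g y) := h2
      rw [h] at this
      exact this
    exact absurd (hlow y hy) (not_le.mpr this)
  have huc := hcomp.uniformContinuousOn_of_continuous hg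
  rw [Metric.uniformContinuousOn_iff] at huc
  obtain ⟨δ, hδ, huc⟩ := huc ε hε
  obtain ⟨M, hM⟩ := exists_nat_gt (2 / δ)
  have hMpos : (0 : ℝ) < M := lt_trans (by positivity) hM
  have hMδ : 2 / (M : ℝ) < δ := by
    rw [div_lt_iff₀ hMpos, mul_comm]
    rwa [div_lt_iff₀ hδ] at hM
  set pt : (Fin n → ℕ) → (Fin n → ℝ) := fun w j => 2 * (w j : ℝ) / M - 1 with hpt
  have hptabs : ∀ w : Fin n → ℕ, (∀ j, w j ≤ M) → ∀ j, |pt w j| ≤ 1 := by
    intro w hw j
    have h1 : (w j : ℝ) ≤ M := by exact_mod_cast hw j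
    have h2 : (0 : ℝ) ≤ w j := Nat.cast_nonneg _
    have h3 : 2 * (w j : ℝ) / M ≤ 2 := by rw [div_le_iff₀ hMpos]; linarith
    have h4 : 0 ≤ 2 * (w j : ℝ) / M := by positivity
    rw [abs_le]
    simp only [hpt]
    constructor <;> linarith
  have hptmem : ∀ w : Fin n → ℕ, (∀ j, w j ≤ M) → pt w ∈ closedBall (0 : Fin n → ℝ) 1 := by
    intro w hw
    rw [mem_closedBall_zero_iff, pi_norm_le_iff_of_nonneg zero_le_one]
    exact hptabs w hw
  have hgood : Good (fun w => labv hn ε (g (pt w))) M := by
    constructor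
    · intro w hw hb
      have h1 : pt (anti M w) = -pt w := by
        funext j
        simp only [hpt, anti, Pi.neg_apply]
        rw [Nat.cast_sub (hw j)]
        field_simp
        ring
      have h2 : ‖pt w‖ = 1 := by
        apply le_antisymm
        · rw [pi_norm_le_iff_of_nonneg zero_le_one]
          exact hptabs w hw
        · obtain ⟨j, hj⟩ := hb
          have h3 : |pt w j| = 1 := by
            simp only [hpt]
            rcases hj with hj | hj
            · rw [hj]; simp
            · rw [hj]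
              have : 2 * (M : ℝ) / M - 1 = 1 := by field_simp; ring
              rw [this, abs_one]
          rw [← h3]
          exact norm_le_pi_norm (pt w) j
      show labv hn ε (g (pt (anti M w))) = comp (labv hn ε (g (pt w)))
      rw [h1, hodd _ h2]
      exact labv_neg hn hε (hbig _ (hptmem w hw))
    · intro u w hu hw hadj hdiv
      by_contra hne
      have hdiv' : labv hn ε (g (pt u)) / 2 = labv hn ε (g (pt w)) / 2 := hdiv
      have hne' : labv hn ε (g (pt u)) ≠ labv hn ε (g (pt w)) := hne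
      rw [labv_div, labv_div] at hdiv'
      have hi : i0 hn (big ε (g (pt u))) = i0 hn (big ε (g (pt w))) := Fin.ext hdiv'
      have h1 : ε ≤ |g (pt u) (i0 hn (big ε (g (pt u))))| := i0_mem hn (hbig _ (hptmem u hu))
      have h2 : ε ≤ |g (pt w) (i0 hn (big ε (g (pt w))))| := i0_mem hn (hbig _ (hptmem w hw))
      unfold labv at hne'
      rw [hi] at h1 hne'
      set i := i0 hn (big ε (g (pt w))) with hidef
      have hd : dist (pt u) (pt w) < δ := by
        refine lt_of_le_of_lt ?_ hMδ
        rw [dist_pi_le_iff (by positivity)]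
        intro j
        rw [Real.dist_eq]
        simp only [hpt]
        have h3 : (u j : ℝ) ≤ w j + 1 := by exact_mod_cast (hadj j).1
        have h4 : (w j : ℝ) ≤ u j + 1 := by exact_mod_cast (hadj j).2
        have h5 : 2 * (u j : ℝ) / M - 1 - (2 * (w j : ℝ) / M - 1) = 2 * ((u j : ℝ) - w j) / M := by
          ring
        rw [h5, abs_div, abs_mul, abs_of_pos hMpos, abs_two]
        gcongr
        have h6 : |(u j : ℝ) - w j| ≤ 1 := by rw [abs_le]; constructor <;> linarith
        linarith
      have hgd := huc _ (hptmem u hu) _ (hptmem w hw) hd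
      have h7 : |g (pt u) i - g (pt w) i| < ε := by
        rw [← Real.dist_eq]
        exact (dist_le_pi_dist _ _ i).trans_lt hgd
      rw [abs_lt] at h7
      split_ifs at hne' with ha hb hb
      · exact hne' rfl
      · push Not at hb
        rw [abs_of_neg ha] at h1
        rw [abs_of_nonneg hb] at h2
        linarith
      · push Not at ha
        rw [abs_of_nonneg ha] at h1
        rw [abs_of_neg hb] at h2
        linarith
      · exact hne' rfl
  refine tucker hgood fun w => ?_
  show labv hn ε (g (pt w)) / 2 < n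
  rw [labv_div]
  exact (i0 hn _).2

/-- radial rescaling between two norms. -/
noncomputable def rad {E : Type*} [NormedAddCommGroup E] [NormedSpace ℝ E] {n : ℕ}
    (L : (Fin n → ℝ) ≃L[ℝ] E) (y : Fin n → ℝ) : E := (‖y‖ / ‖L y‖) • L y

theorem norm_rad {E : Type*} [NormedAddCommGroup E] [NormedSpace ℝ E] {n : ℕ}
    (L : (Fin n → ℝ) ≃L[ℝ] E) (y : Fin n → ℝ) : ‖rad L y‖ = ‖y‖ := by
  unfold rad
  by_cases h : y = 0
  · simp [h]
  · have h1 : ‖L y‖ ≠ 0 := by
      rw [norm_ne_zero_iff]
      intro h2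
      exact h (by simpa using h2)
    rw [norm_smul, norm_div, norm_norm, norm_norm, div_mul_cancel₀ _ h1]

theorem rad_neg {E : Type*} [NormedAddCommGroup E] [NormedSpace ℝ E] {n : ℕ}
    (L : (Fin n → ℝ) ≃L[ℝ] E) (y : Fin n → ℝ) : rad L (-y) = -rad L y := by
  unfold rad
  rw [map_neg, norm_neg, norm_neg, smul_neg]

theorem continuous_rad {E : Type*} [NormedAddCommGroup E] [NormedSpace ℝ E] {n : ℕ}
    (L : (Fin n → ℝ) ≃L[ℝ] E) : Continuous (rad L) := by
  rw [continuous_iff_continuousAt]
  intro y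
  by_cases h : y = 0
  · subst h
    have h0 : rad L 0 = 0 := by simp [rad]
    unfold ContinuousAt
    rw [h0, tendsto_zero_iff_norm_tendsto_zero]
    simp only [norm_rad]
    have := (continuous_norm (E := Fin n → ℝ)).tendsto 0
    rwa [norm_zero] at this
  · have h1 : ‖L y‖ ≠ 0 := by
      rw [norm_ne_zero_iff]
      intro h2
      exact h (by simpa using h2)
    unfold rad
    exact ((continuous_norm.continuousAt).div (L.continuous.norm.continuousAt) h1).smul
      L.continuous.continuousAt

/-- **Borsuk's odd mapping theorem**: a continuous map from the closed unit ball of a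
finite-dimensional normed space to a space of the same dimension which is odd on the unit sphere
has a zero. -/
theorem borsuk_odd {E F : Type*} [NormedAddCommGroup E] [NormedSpace ℝ E] [FiniteDimensional ℝ E]
    [NormedAddCommGroup F] [NormedSpace ℝ F] [FiniteDimensional ℝ F]
    (hEF : Module.finrank ℝ F = Module.finrank ℝ E)
    (f : E → F) (hf : ContinuousOn f (closedBall 0 1))
    (hodd : ∀ x, ‖x‖ = 1 → f (-x) = -f x) : ∃ x ∈ closedBall (0 : E) 1, f x = 0 := by
  set n := Module.finrank ℝ E with hn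
  have LE : (Fin n → ℝ) ≃L[ℝ] E := ContinuousLinearEquiv.ofFinrankEq (by simp [hn])
  have LF : F ≃L[ℝ] (Fin n → ℝ) := ContinuousLinearEquiv.ofFinrankEq (by simp [hEF])
  obtain ⟨y, hy, hzero⟩ := borsuk_cube (fun y => LF (f (rad LE y)))
    (by
      refine LF.continuous.comp_continuousOn (hf.comp (continuous_rad LE).continuousOn ?_)
      intro y hy
      rw [mem_closedBall_zero_iff] at hy ⊢
      rwa [norm_rad])
    (by
      intro y hy
      show LF (f (rad LE (-y))) = -LF (f (rad LE y))
      rw [rad_neg, hodd _ (by rw [norm_rad, hy]), map_neg])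
  refine ⟨rad LE y, ?_, ?_⟩
  · rw [mem_closedBall_zero_iff] at hy ⊢
    rwa [norm_rad]
  · have : LF (f (rad LE y)) = 0 := hzero
    simpa using this

/-- **Borsuk–Ulam theorem**. -/
theorem borsuk_ulam {n : ℕ} {F : Type*} [NormedAddCommGroup F] [NormedSpace ℝ F]
    [FiniteDimensional ℝ F] (hF : Module.finrank ℝ F = n)
    (h : EuclideanSpace ℝ (Fin n) × ℝ → F)
    (hc : ContinuousOn h {p | ‖p.1‖ ^ 2 + p.2 ^ 2 = 1}) :
    ∃ p : EuclideanSpace ℝ (Fin n) × ℝ, ‖p.1‖ ^ 2 + p.2 ^ 2 = 1 ∧ h p = h (-p) := by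
  set up : EuclideanSpace ℝ (Fin n) → EuclideanSpace ℝ (Fin n) × ℝ :=
    fun x => (x, Real.sqrt (1 - ‖x‖ ^ 2)) with hup
  have hupc : Continuous up := by
    refine continuous_id.prodMk (Real.continuous_sqrt.comp ?_)
    fun_prop
  have hmem : ∀ x ∈ closedBall (0 : EuclideanSpace ℝ (Fin n)) 1, ‖(up x).1‖ ^ 2 + (up x).2 ^ 2 = 1 := by
    intro x hx
    rw [mem_closedBall_zero_iff] at hx
    simp only [hup]
    rw [Real.sq_sqrt (by nlinarith [norm_nonneg x])]
    ring
  obtain ⟨x, hx, h0⟩ := borsuk_odd (E := EuclideanSpace ℝ (Fin n)) (F := F)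
    (by rw [hF, finrank_euclideanSpace, Fintype.card_fin])
    (fun x => h (up x) - h (-(up x)))
    (by
      refine ContinuousOn.sub (hc.comp hupc.continuousOn fun x hx => hmem x hx)
        (hc.comp hupc.neg.continuousOn fun x hx => ?_)
      have := hmem x hx
      show ‖(-(up x)).1‖ ^ 2 + (-(up x)).2 ^ 2 = 1
      rw [Prod.fst_neg, Prod.snd_neg, norm_neg, neg_sq]
      exact this)
    (by
      intro x hx
      have h1 : up (-x) = -up x := by
        simp only [hup, norm_neg, hx]
        simp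
      show h (up (-x)) - h (-(up (-x))) = -(h (up x) - h (-(up x)))
      rw [h1, neg_neg, neg_sub])
  exact ⟨up x, hmem x hx, sub_eq_zero.mp h0⟩

end Pool.Agent.H91.Borsuk
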