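import Pool.Agent.H91.Borsuk.Parity

/-! # Kuhn chains in a grid cube, boundary identity -/

set_option autoImplicit false

namespace Pool.Agent.H91.Borsuk

open Finset

variable {n : ℕ}

/-- unit vector. -/
def ee (j : Fin n) : Fin n → ℕ := Pi.single j 1

/-- labels along the chain starting at `v` in directions `l`. -/
def ch (lab : (Fin n → ℕ) → ℕ) : (Fin n → ℕ) → List (Fin n) → List ℕ
  | v, [] => [lab v]
  | v, j :: l => lab v :: ch lab (v + ee j) l

@[simp] theorem length_ch (lab : (Fin n → ℕ) → ℕ) (v : Fin n → ℕ) (l : List (Fin n)) :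
    (ch lab v l).length = l.length + 1 := by
  induction l generalizing v with
  | nil => rfl
  | cons j l ih => simp [ch, ih]

/-- end point of the chain. -/
def top (v : Fin n → ℕ) (l : List (Fin n)) : Fin n → ℕ := v + (l.map ee).sum

@[simp] theorem top_nil (v : Fin n → ℕ) : top v [] = v := by simp [top]

theorem top_cons (v : Fin n → ℕ) (j : Fin n) (l : List (Fin n)) :
    top v (j :: l) = top (v + ee j) l := by
  simp [top, add_assoc]

theorem ch_append (lab : (Fin n → ℕ) → ℕ) (v : Fin n → ℕ) (l : List (Fin n)) (j : Fin n) :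
    ch lab v (l ++ [j]) = ch lab v l ++ [lab (top v l + ee j)] := by
  induction l generalizing v with
  | nil => simp [ch]
  | cons a l ih => simp [ch, ih, top_cons]

/-- swap the entries `i`, `i+1`. -/
def sw : ℕ → List (Fin n) → List (Fin n)
  | 0, a :: b :: t => b :: a :: t
  | i + 1, a :: t => a :: sw i t
  | 0, [] => []
  | 0, [a] => [a]
  | _ + 1, [] => []

theorem sw_sw (i : ℕ) (l : List (Fin n)) : sw i (sw i l) = l := by
  induction i generalizing l with
  | zero =>
    match l with
    | [] => rfl
    | [a] => rfl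
    | a :: b :: t => rfl
  | succ i ih =>
    match l with
    | [] => rfl
    | a :: t => simp [sw, ih]

theorem sw_perm (i : ℕ) (l : List (Fin n)) : (sw i l).Perm l := by
  induction i generalizing l with
  | zero =>
    match l with
    | [] => exact List.Perm.refl _
    | [a] => exact List.Perm.refl _
    | a :: b :: t => exact List.Perm.swap a b t
  | succ i ih =>
    match l with
    | [] => exact List.Perm.refl _
    | a :: t => exact (ih t).cons a

theorem sw_ne (i : ℕ) (l : List (Fin n)) (hl : l.Nodup) (hi : i + 1 < l.length) : sw i l ≠ l := by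
  induction i generalizing l with
  | zero =>
    match l with
    | [] => simp at hi
    | [a] => simp at hi
    | a :: b :: t =>
      intro h
      simp only [sw, List.cons.injEq] at h
      simp only [List.nodup_cons, List.mem_cons, not_or] at hl
      exact hl.1.1 h.2.1
  | succ i ih =>
    match l with
    | [] => simp at hi
    | a :: t =>
      intro h
      simp only [sw, List.cons.injEq, true_and] at h
      exact ih t (List.nodup_cons.mp hl).2 (by simpa using hi) h

theorem ch_sw (lab : (Fin n → ℕ) → ℕ) (i : ℕ) (v : Fin n → ℕ) (l : List (Fin n)) :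
    (ch lab v (sw i l)).eraseIdx (i + 1) = (ch lab v l).eraseIdx (i + 1) := by
  induction i generalizing v l with
  | zero =>
    match l with
    | [] => rfl
    | [a] => rfl
    | a :: b :: t => simp [sw, ch, add_right_comm v (ee b) (ee a)]
  | succ i ih =>
    match l with
    | [] => rfl
    | a :: t =>
      simp only [sw, ch, List.eraseIdx_cons_succ]
      rw [ih]

/-- all orderings of a set. -/
def ords (D : Finset (Fin n)) : Finset (List (Fin n)) := (Multiset.lists D.val).toFinset

theorem mem_ords {D : Finset (Fin n)} {l : List (Fin n)} :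
    l ∈ ords D ↔ l.Nodup ∧ ∀ j, j ∈ l ↔ j ∈ D := by
  unfold ords
  rw [Multiset.mem_toFinset, Multiset.mem_lists_iff]
  constructor
  · intro h
    have h' : D.val = (l : Multiset (Fin n)) := h
    constructor
    · rw [← Multiset.coe_nodup, ← h']; exact D.nodup
    · intro j
      rw [← Multiset.mem_coe, ← h']
      rfl
  · rintro ⟨h1, h2⟩
    have : D.val = (l : Multiset (Fin n)) := by
      rw [Multiset.Nodup.ext D.nodup (Multiset.coe_nodup.mpr h1)]
      intro j
      rw [Multiset.mem_coe, h2]
      rfl
    exact this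

theorem length_of_mem_ords {D : Finset (Fin n)} {l : List (Fin n)} (h : l ∈ ords D) :
    l.length = D.card := by
  obtain ⟨h1, h2⟩ := mem_ords.mp h
  have : D = l.toFinset := by ext j; rw [List.mem_toFinset, h2]
  rw [this, List.toFinset_card_of_nodup h1]

theorem sum_ords_cons (D : Finset (Fin n)) (hD : D.Nonempty) (F : List (Fin n) → ZMod 2) :
    ∑ l ∈ ords D, F l = ∑ j ∈ D, ∑ l ∈ ords (D.erase j), F (j :: l) := by
  rw [Finset.sum_sigma']
  symm
  refine Finset.sum_bij (fun p _ => p.1 :: p.2) ?_ ?_ ?_ ?_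
  · rintro ⟨j, l⟩ hp
    simp only [Finset.mem_sigma, mem_ords] at hp
    obtain ⟨hj, hl, hl2⟩ := hp
    rw [mem_ords, List.nodup_cons]
    refine ⟨⟨?_, hl⟩, ?_⟩
    · rw [hl2]; simp
    · intro i
      rw [List.mem_cons, hl2, Finset.mem_erase]
      constructor
      · rintro (h | h)
        · rw [h]; exact hj
        · exact h.2
      · intro h
        by_cases hi : i = j
        · left; exact hi
        · right; exact ⟨hi, h⟩
  · rintro ⟨j, l⟩ _ ⟨j', l'⟩ _ h
    simp only [List.cons.injEq] at h
    obtain ⟨h1, h2⟩ := h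
    subst h1; subst h2; rfl
  · intro l hl
    obtain ⟨h1, h2⟩ := mem_ords.mp hl
    match l with
    | [] =>
      obtain ⟨j, hj⟩ := hD
      exact absurd ((h2 j).mpr hj) (by simp)
    | j :: t =>
      refine ⟨⟨j, t⟩, ?_, rfl⟩
      rw [List.nodup_cons] at h1
      simp only [Finset.mem_sigma, mem_ords]
      refine ⟨(h2 j).mp (by simp), h1.2, fun i => ?_⟩
      rw [Finset.mem_erase, ← h2, List.mem_cons]
      constructor
      · intro hi
        refine ⟨?_, Or.inr hi⟩
        rintro rfl
        exact h1.1 hi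
      · rintro ⟨hi, h | h⟩
        · exact absurd h hi
        · exact h
  · rintro ⟨j, l⟩ _
    rfl

theorem sum_ords_reverse (D : Finset (Fin n)) (F : List (Fin n) → ZMod 2) :
    ∑ l ∈ ords D, F l.reverse = ∑ l ∈ ords D, F l := by
  refine Finset.sum_bij (fun l _ => l.reverse) ?_ ?_ ?_ ?_
  · intro l hl
    rw [mem_ords] at hl ⊢
    exact ⟨List.nodup_reverse.mpr hl.1, fun j => by rw [List.mem_reverse]; exact hl.2 j⟩
  · intro a _ b _ h
    exact List.reverse_injective h
  · intro l hl
    refine ⟨l.reverse, ?_, List.reverse_reverse l⟩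
    rw [mem_ords] at hl ⊢
    exact ⟨List.nodup_reverse.mpr hl.1, fun j => by rw [List.mem_reverse]; exact hl.2 j⟩
  · intro l _
    rfl

theorem sum_ords_snoc (D : Finset (Fin n)) (hD : D.Nonempty) (F : List (Fin n) → ZMod 2) :
    ∑ l ∈ ords D, F l = ∑ j ∈ D, ∑ l ∈ ords (D.erase j), F (l ++ [j]) := by
  rw [← sum_ords_reverse, sum_ords_cons D hD]
  refine Finset.sum_congr rfl fun j _ => ?_
  rw [← sum_ords_reverse]
  refine Finset.sum_congr rfl fun l _ => ?_
  simp

/-- middle facets cancel. -/
theorem sum_middle (lab : (Fin n → ℕ) → ℕ) (k : ZMod 2) (v : Fin n → ℕ) (D : Finset (Fin n))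
    (i : ℕ) (hi : i + 1 < D.card) :
    ∑ l ∈ ords D, phi k (((ch lab v l).eraseIdx (i + 1) : List ℕ) : Multiset ℕ) = 0 := by
  refine Finset.sum_involution (fun l _ => sw i l) ?_ ?_ ?_ ?_
  · intro l _
    rw [ch_sw, zadd]
  · intro l hl _
    exact sw_ne i l (mem_ords.mp hl).1 (by rw [length_of_mem_ords hl]; exact hi)
  · intro l hl
    rw [mem_ords] at hl ⊢
    have hp := sw_perm i l
    exact ⟨hp.nodup_iff.mpr hl.1, fun j => by rw [hp.mem_iff]; exact hl.2 j⟩
  · intro l _
    exact sw_sw i l

/-- sum over all facets of all chains. -/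
theorem sum_facets (lab : (Fin n → ℕ) → ℕ) (k : ZMod 2) (v : Fin n → ℕ) (D : Finset (Fin n))
    (hD : D.Nonempty) :
    ∑ l ∈ ords D, (phi k ((ch lab v l : List ℕ) : Multiset ℕ)
        + phi (k + 1) ((ch lab v l : List ℕ) : Multiset ℕ))
      = ∑ j ∈ D, ∑ l ∈ ords (D.erase j), (phi k ((ch lab (v + ee j) l : List ℕ) : Multiset ℕ)
        + phi k ((ch lab v l : List ℕ) : Multiset ℕ)) := by
  have hc : 0 < D.card := Finset.card_pos.mpr hD
  obtain ⟨d, hd⟩ : ∃ d, D.card = d + 1 := ⟨D.card - 1, by omega⟩
  have h1 : ∀ l ∈ ords D, (phi k ((ch lab v l : List ℕ) : Multiset ℕ)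
        + phi (k + 1) ((ch lab v l : List ℕ) : Multiset ℕ))
      = ∑ i ∈ range (d + 2), phi k (((ch lab v l).eraseIdx i : List ℕ) : Multiset ℕ) := by
    intro l hl
    rw [← phi_parity, sum_map_erase_coe, length_ch, length_of_mem_ords hl, hd]
  rw [Finset.sum_congr rfl h1, Finset.sum_comm, Finset.sum_range_succ, Finset.sum_range_succ']
  have h2 : ∑ i ∈ range d, ∑ l ∈ ords D, phi k (((ch lab v l).eraseIdx (i + 1) : List ℕ) : Multiset ℕ)
      = 0 := by
    refine Finset.sum_eq_zero fun i hi => ?_
    rw [Finset.mem_range] at hi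
    exact sum_middle lab k v D i (by omega)
  rw [h2, zero_add, sum_ords_cons D hD, sum_ords_snoc D hD, ← Finset.sum_add_distrib]
  refine Finset.sum_congr rfl fun j hj => ?_
  rw [← Finset.sum_add_distrib]
  refine Finset.sum_congr rfl fun l hl => ?_
  have hlen : l.length = d := by
    rw [length_of_mem_ords hl, Finset.card_erase_of_mem hj, hd]; rfl
  congr 2
  rw [ch_append]
  have : (ch lab v l).length = d + 1 := by rw [length_ch, hlen]
  rw [← this, List.eraseIdx_append_of_length_le le_rfl]
  simp

end Pool.Agent.H91.Borsuk
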