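import Pool.Agent.H91.Borsuk.Chain

/-! # Faces of the grid cube, counts, boundary identity, antipodality -/

set_option autoImplicit false

namespace Pool.Agent.H91.Borsuk

open Finset

variable {n : ℕ}

/-- free coordinates. -/
def fr (s : Fin n → Option Bool) : Finset (Fin n) := univ.filter (fun j => s j = none)

/-- admissible base coordinates. -/
def rg (M : ℕ) : Option Bool → Finset ℕ
  | none => range M
  | some true => {M}
  | some false => {0}

/-- base points of a face. -/
def Vs (M : ℕ) (s : Fin n → Option Bool) : Finset (Fin n → ℕ) :=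
  Fintype.piFinset (fun j => rg M (s j))

/-- the count. -/
def N (lab : (Fin n → ℕ) → ℕ) (M : ℕ) (k : ZMod 2) (s : Fin n → Option Bool) : ZMod 2 :=
  ∑ v ∈ Vs M s, ∑ l ∈ ords (fr s), phi k ((ch lab v l : List ℕ) : Multiset ℕ)

theorem sum_pi_split (c : Fin n → Finset ℕ) (j : Fin n) (T : Finset ℕ)
    (G : (Fin n → ℕ) → ZMod 2) :
    ∑ v ∈ Fintype.piFinset (Function.update c j T), G v
      = ∑ u ∈ Fintype.piFinset (Function.update c j {0}), ∑ x ∈ T, G (Function.update u j x) := by
  rw [← Finset.sum_product']
  symm
  refine Finset.sum_bij' (fun p _ => Function.update p.1 j p.2)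
    (fun v _ => (Function.update v j 0, v j)) ?_ ?_ ?_ ?_ ?_
  · rintro ⟨u, x⟩ h
    simp only [Finset.mem_product, Fintype.mem_piFinset] at h
    rw [Fintype.mem_piFinset]
    intro i
    by_cases hi : i = j
    · subst hi; simpa using h.2
    · have := h.1 i
      simp only [Function.update_of_ne hi] at this ⊢
      exact this
  · intro v h
    simp only [Finset.mem_product, Fintype.mem_piFinset] at h ⊢
    constructor
    · intro i
      by_cases hi : i = j
      · subst hi; simp
      · have := h i
        simp only [Function.update_of_ne hi] at this ⊢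
        exact this
    · have := h j
      simpa using this
  · rintro ⟨u, x⟩ h
    simp only [Finset.mem_product, Fintype.mem_piFinset] at h
    have h0 : u j = 0 := by simpa using h.1 j
    ext i
    · by_cases hi : i = j
      · subst hi; simp [h0]
      · simp [Function.update_of_ne hi]
    · simp
  · intro v _
    simp
  · intro v _
    rfl

theorem rg_update (M : ℕ) (s : Fin n → Option Bool) (j : Fin n) (b : Option Bool) :
    (fun i => rg M (Function.update s j b i)) = Function.update (fun i => rg M (s i)) j (rg M b) := by
  funext i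
  by_cases hi : i = j
  · subst hi; simp
  · simp [Function.update_of_ne hi]

theorem fr_update (s : Fin n → Option Bool) (j : Fin n) (b : Bool) :
    fr (Function.update s j (some b)) = (fr s).erase j := by
  ext i
  simp only [fr, Finset.mem_filter, Finset.mem_univ, true_and, Finset.mem_erase]
  by_cases hi : i = j
  · subst hi; simp
  · simp [hi]

theorem tele (M : ℕ) (h : ℕ → ZMod 2) : ∑ x ∈ range M, (h (x + 1) + h x) = h M + h 0 := by
  induction M with
  | zero => simp [zadd]
  | succ m ih =>
    rw [Finset.sum_range_succ, ih]
    have := zadd (h m)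
    linear_combination this

theorem update_add_ee (u : Fin n → ℕ) (j : Fin n) (x : ℕ) :
    Function.update u j x + ee j = Function.update u j (x + 1) := by
  ext i
  by_cases hi : i = j
  · subst hi; simp [ee]
  · simp [ee, hi]

theorem sum_Vs_ends (M : ℕ) (s : Fin n → Option Bool) (j : Fin n) (hj : s j = none)
    (g : (Fin n → ℕ) → ZMod 2) :
    ∑ v ∈ Vs M s, (g (v + ee j) + g v)
      = ∑ v ∈ Vs M (Function.update s j (some true)), g v
        + ∑ v ∈ Vs M (Function.update s j (some false)), g v := by
  have h0 : (fun i => rg M (s i)) = Function.update (fun i => rg M (s i)) j (range M) := by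
    funext i
    by_cases hi : i = j
    · subst hi; simp [hj, rg]
    · simp [Function.update_of_ne hi]
  have e1 : Vs M s = Fintype.piFinset (Function.update (fun i => rg M (s i)) j (range M)) := by
    rw [← h0]; rfl
  have e2 : Vs M (Function.update s j (some true))
      = Fintype.piFinset (Function.update (fun i => rg M (s i)) j {M}) := by
    unfold Vs; rw [rg_update]; rfl
  have e3 : Vs M (Function.update s j (some false))
      = Fintype.piFinset (Function.update (fun i => rg M (s i)) j {0}) := by
    unfold Vs; rw [rg_update]; rfl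
  rw [e1, e2, e3, sum_pi_split _ j (range M), sum_pi_split _ j {M}, ← Finset.sum_add_distrib]
  refine Finset.sum_congr rfl fun u hu => ?_
  have hu0 : u j = 0 := by
    have := (Fintype.mem_piFinset.mp hu) j
    simpa using this
  have hu1 : Function.update u j 0 = u := by rw [← hu0]; exact Function.update_eq_self j u
  simp only [update_add_ee, Finset.sum_singleton]
  have := tele M (fun x => g (Function.update u j x))
  simp only [hu1] at this
  exact this

/-- **boundary identity**. -/
theorem boundary (lab : (Fin n → ℕ) → ℕ) (M : ℕ) (k : ZMod 2) (s : Fin n → Option Bool)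
    (hs : (fr s).Nonempty) :
    N lab M k s + N lab M (k + 1) s
      = ∑ j ∈ fr s, ∑ b : Bool, N lab M k (Function.update s j (some b)) := by
  unfold N
  rw [← Finset.sum_add_distrib]
  have h1 : ∀ v ∈ Vs M s, (∑ l ∈ ords (fr s), phi k ((ch lab v l : List ℕ) : Multiset ℕ)
      + ∑ l ∈ ords (fr s), phi (k + 1) ((ch lab v l : List ℕ) : Multiset ℕ))
      = ∑ j ∈ fr s, ∑ l ∈ ords ((fr s).erase j),
        (phi k ((ch lab (v + ee j) l : List ℕ) : Multiset ℕ)
        + phi k ((ch lab v l : List ℕ) : Multiset ℕ)) := by
    intro v _
    rw [← Finset.sum_add_distrib, sum_facets lab k v (fr s) hs]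
  rw [Finset.sum_congr rfl h1, Finset.sum_comm]
  refine Finset.sum_congr rfl fun j hj => ?_
  have hj' : s j = none := by simpa [fr] using hj
  rw [Finset.sum_comm]
  simp only [Fintype.sum_bool, fr_update]
  rw [Finset.sum_comm (s := Vs M (Function.update s j (some true))),
    Finset.sum_comm (s := Vs M (Function.update s j (some false))), ← Finset.sum_add_distrib]
  refine Finset.sum_congr rfl fun l _ => ?_
  exact sum_Vs_ends M s j hj' (fun v => phi k ((ch lab v l : List ℕ) : Multiset ℕ))

/-- faces of dimension zero. -/
theorem N_full (lab : (Fin n → ℕ) → ℕ) (M : ℕ) (s : Fin n → Option Bool) (hs : fr s = ∅) :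
    N lab M 0 s + N lab M 1 s = 1 := by
  have h1 : ords (fr s) = {[]} := by
    ext l
    rw [mem_ords, hs, Finset.mem_singleton]
    constructor
    · rintro ⟨_, h⟩
      rw [List.eq_nil_iff_forall_not_mem]
      intro j hj
      simpa using (h j).mp hj
    · rintro rfl
      simp
  have h2 : ∃ v, Vs M s = {v} := by
    refine ⟨fun j => if s j = some true then M else 0, ?_⟩
    ext v
    unfold Vs
    rw [Fintype.mem_piFinset, Finset.mem_singleton, funext_iff]
    refine forall_congr' fun j => ?_
    have hj : s j ≠ none := by
      intro h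
      have : j ∈ fr s := by simp [fr, h]
      rw [hs] at this
      simp at this
    match h : s j with
    | none => exact absurd h hj
    | some true => simp [rg]
    | some false => simp [rg]
  obtain ⟨v, hv⟩ := h2
  unfold N
  rw [h1, hv]
  simp only [Finset.sum_singleton, ch, phi]
  simp only [Multiset.coe_singleton, Multiset.nodup_singleton, if_true, Multiset.sort_singleton, pa]
  have := zadd (lab v : ZMod 2)
  linear_combination this

/-- antipode. -/
def anti (M : ℕ) (v : Fin n → ℕ) : Fin n → ℕ := fun j => M - v j

/-- opposite face. -/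
def opp (s : Fin n → Option Bool) : Fin n → Option Bool := fun j => (s j).map not

theorem fr_opp (s : Fin n → Option Bool) : fr (opp s) = fr s := by
  ext j; simp [fr, opp]

theorem opp_opp (s : Fin n → Option Bool) : opp (opp s) = s := by
  ext j; simp [opp, Option.map_map]

theorem top_apply (v : Fin n → ℕ) (l : List (Fin n)) (hl : l.Nodup) (j : Fin n) :
    top v l j = v j + if j ∈ l then 1 else 0 := by
  induction l generalizing v with
  | nil => simp
  | cons a l ih =>
    rw [List.nodup_cons] at hl
    rw [top_cons, ih _ hl.2]
    by_cases hj : j = a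
    · subst hj
      simp [ee, hl.1]
    · simp [ee, hj]

/-- points of a chain satisfy `v ≤ w ≤ top v l`. -/
theorem mem_ch (lab : (Fin n → ℕ) → ℕ) (v : Fin n → ℕ) (l : List (Fin n)) (c : ℕ)
    (hc : c ∈ ch lab v l) : ∃ w, v ≤ w ∧ w ≤ top v l ∧ c = lab w := by
  induction l generalizing v with
  | nil =>
    simp only [ch, List.mem_singleton] at hc
    exact ⟨v, le_rfl, by simp, hc⟩
  | cons a l ih =>
    simp only [ch, List.mem_cons] at hc
    rcases hc with hc | hc
    · refine ⟨v, le_rfl, ?_, hc⟩
      unfold top
      exact le_self_add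
    · obtain ⟨w, h1, h2, h3⟩ := ih _ hc
      exact ⟨w, le_self_add.trans h1, by rw [top_cons]; exact h2, h3⟩

theorem anti_top_add (M : ℕ) (v : Fin n → ℕ) (a : Fin n) (h : v a + 1 ≤ M) :
    anti M (v + ee a) + ee a = anti M v := by
  ext j
  by_cases hj : j = a
  · subst hj
    simp only [anti, ee, Pi.add_apply, Pi.single_eq_same]
    omega
  · simp [anti, ee, hj]

theorem top_anti (M : ℕ) (v : Fin n → ℕ) (l : List (Fin n)) (hl : l.Nodup)
    (h : ∀ j ∈ l, v j + 1 ≤ M) : top (anti M (top v l)) l.reverse = anti M v := by
  ext j
  rw [top_apply _ _ (List.nodup_reverse.mpr hl)]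
  simp only [anti, List.mem_reverse]
  rw [top_apply _ _ hl]
  by_cases hj : j ∈ l
  · have := h j hj
    simp only [hj, if_true]
    omega
  · simp [hj]

theorem ch_reverse (lab : (Fin n → ℕ) → ℕ) (M : ℕ) (v : Fin n → ℕ) (l : List (Fin n))
    (hl : l.Nodup) (h : ∀ j ∈ l, v j + 1 ≤ M)
    (hlab : ∀ w, v ≤ w → w ≤ top v l → lab (anti M w) = comp (lab w)) :
    ch lab (anti M (top v l)) l.reverse = ((ch lab v l).map comp).reverse := by
  induction l generalizing v with
  | nil => simp [ch, hlab v le_rfl (by simp)]
  | cons a l ih =>
    rw [List.nodup_cons] at hl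
    have hva : v a + 1 ≤ M := h a (by simp)
    have h' : ∀ j ∈ l, (v + ee a) j + 1 ≤ M := by
      intro j hj
      have hja : j ≠ a := fun e => hl.1 (e ▸ hj)
      simp only [Pi.add_apply, ee, Pi.single_eq_of_ne hja, add_zero]
      exact h j (by simp [hj])
    rw [List.reverse_cons, top_cons, ch_append, top_anti M (v + ee a) l hl.2 h',
      anti_top_add M v a hva]
    rw [ih (v + ee a) hl.2 h' (fun w hw1 hw2 => hlab w (le_self_add.trans hw1)
      (by rw [top_cons]; exact hw2))]
    simp only [ch, List.map_cons, List.reverse_cons]
    rw [hlab v le_rfl (by unfold top; exact le_self_add)]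

end Pool.Agent.H91.Borsuk
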