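import Mathlib

/-! # Parity lemmas for alternating label sets (Ky Fan) -/

set_option autoImplicit false

namespace Pool.Agent.H91.Borsuk

open Finset

theorem zadd (x : ZMod 2) : x + x = 0 := CharTwo.add_self_eq_zero x

theorem zadd11 (k : ZMod 2) : k + 1 + 1 = k := by
  rw [add_assoc, zadd, add_zero]

/-- alternation indicator of a list of labels; the sign of the label `c` is its parity. -/
def pa : ZMod 2 → List ℕ → ZMod 2
  | _, [] => 1
  | k, c :: l => ((c : ZMod 2) + k) * pa (k + 1) l

theorem sum_eraseIdx (k : ZMod 2) (l : List ℕ) :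
    ∑ i ∈ range l.length, pa k (l.eraseIdx i) = pa k l + pa (k + 1) l := by
  induction l generalizing k with
  | nil => simp [pa, zadd]
  | cons c t ih =>
    rw [List.length_cons, Finset.sum_range_succ']
    simp only [List.eraseIdx_cons_succ, pa, List.eraseIdx_zero, List.tail_cons]
    rw [← Finset.mul_sum, ih (k + 1), zadd11]
    have h := zadd (pa k t)
    have h2 : (2 : ZMod 2) = 0 := rfl
    linear_combination (-(0:ZMod 2)) * h2

/-- `φ`: alternation indicator of a multiset of labels. -/
def phi (k : ZMod 2) (S : Multiset ℕ) : ZMod 2 :=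
  if S.Nodup then pa k (S.sort (· ≤ ·)) else 0

/-- no complementary pair. -/
def NC (S : Multiset ℕ) : Prop := ∀ a ∈ S, ∀ b ∈ S, a / 2 = b / 2 → a = b

theorem sum_map_erase_coe {F : Multiset ℕ → ZMod 2} (l : List ℕ) :
    (((l : Multiset ℕ)).map (fun a => F ((l : Multiset ℕ).erase a))).sum
      = ∑ i ∈ range l.length, F (((l.eraseIdx i : List ℕ)) : Multiset ℕ) := by
  rw [Multiset.map_coe, Multiset.sum_coe]
  have h : (l.map (fun a => F ((l : Multiset ℕ).erase a)))
      = List.ofFn (fun i : Fin l.length => F ((l : Multiset ℕ).erase l[i])) := by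
    apply List.ext_getElem
    · simp
    · intro i h1 h2
      simp
  rw [h, List.sum_ofFn, Finset.sum_range]
  refine Finset.sum_congr rfl fun i _ => ?_
  congr 1
  rw [Multiset.coe_erase, Multiset.coe_eq_coe]
  have h1 : l.Perm (l[i] :: l.eraseIdx i) := (List.getElem_cons_eraseIdx_perm i.2).symm
  have h2 : l.Perm (l[i] :: l.erase l[i]) := List.perm_cons_erase (List.getElem_mem i.2)
  exact (List.perm_cons _).mp (h2.symm.trans h1)

theorem phi_parity (k : ZMod 2) (S : Multiset ℕ) :
    (S.map (fun a => phi k (S.erase a))).sum = phi k S + phi (k + 1) S := by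
  by_cases hS : S.Nodup
  · have hl : ((S.sort (· ≤ ·) : List ℕ) : Multiset ℕ) = S := Multiset.sort_eq S (· ≤ ·)
    set l := S.sort (· ≤ ·) with hldef
    have hsorted : l.Pairwise (· ≤ ·) := Multiset.pairwise_sort S (· ≤ ·)
    have h1 : (S.map (fun a => phi k (S.erase a))).sum
        = ∑ i ∈ range l.length, phi k ((l.eraseIdx i : List ℕ) : Multiset ℕ) := by
      rw [← sum_map_erase_coe, hl]
    rw [h1]
    have h2 : ∀ i, phi k ((l.eraseIdx i : List ℕ) : Multiset ℕ) = pa k (l.eraseIdx i) := by
      intro i
      have hnd : l.Nodup := by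
        rw [← Multiset.coe_nodup, hl]; exact hS
      have hsub : (l.eraseIdx i).Sublist l := List.eraseIdx_sublist l i
      unfold phi
      rw [if_pos (Multiset.coe_nodup.mpr (hnd.sublist hsub)), Multiset.coe_sort]
      congr 1
      exact List.mergeSort_eq_self _ (hsorted.sublist hsub)
    simp only [h2]
    rw [sum_eraseIdx]
    simp only [phi, if_pos hS]
    rw [← hldef]
  · have h0 : ∀ k, phi k S = 0 := fun k => by simp [phi, hS]
    rw [h0, h0, add_zero]
    rw [Multiset.nodup_iff_count_le_one] at hS
    push Not at hS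
    obtain ⟨a, ha⟩ := hS
    rw [Multiset.sum_map_eq_nsmul_single a]
    · by_cases h3 : S.count a = 2
      · rw [h3, two_smul, zadd]
      · have h4 : phi k (S.erase a) = 0 := by
          unfold phi
          rw [if_neg]
          rw [Multiset.nodup_iff_count_le_one]
          push Not
          refine ⟨a, ?_⟩
          rw [Multiset.count_erase_self]
          omega
        rw [h4, smul_zero]
    · intro b hb _
      unfold phi
      rw [if_neg]
      rw [Multiset.nodup_iff_count_le_one]
      push Not
      refine ⟨a, ?_⟩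
      rw [Multiset.count_erase_of_ne (Ne.symm hb)]
      exact ha

/-- complementary label. -/
def comp (c : ℕ) : ℕ := 2 * (c / 2) + (1 - c % 2)

theorem comp_div (c : ℕ) : comp c / 2 = c / 2 := by unfold comp; omega

theorem comp_comp (c : ℕ) : comp (comp c) = c := by unfold comp; omega

theorem comp_injective : Function.Injective comp := fun a b h => by
  rw [← comp_comp a, h, comp_comp]

theorem comp_cast (c : ℕ) : ((comp c : ℕ) : ZMod 2) = (c : ZMod 2) + 1 := by
  have h : (comp c : ℕ) % 2 = (c + 1) % 2 := by unfold comp; omega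
  have h2 := (ZMod.natCast_eq_natCast_iff (comp c) (c + 1) 2).mpr h
  rw [h2]; push_cast; rfl

theorem pa_map_comp (k : ZMod 2) (l : List ℕ) : pa k (l.map comp) = pa (k + 1) l := by
  induction l generalizing k with
  | nil => rfl
  | cons c t ih =>
    simp only [List.map_cons, pa, ih, comp_cast]
    ring

theorem phi_map_comp (k : ZMod 2) {S : Multiset ℕ} (hS : NC S) :
    phi k (S.map comp) = phi (k + 1) S := by
  unfold phi
  by_cases h : S.Nodup
  · rw [if_pos h, if_pos (h.map comp_injective), ← Multiset.map_sort (r := (· ≤ ·)), pa_map_comp]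
    intro a ha b hb
    by_cases hab : a / 2 = b / 2
    · rw [hS a ha b hb hab]; simp
    · unfold comp; omega
  · rw [if_neg h, if_neg]
    intro h2
    exact h (Multiset.Nodup.of_map _ h2)

end Pool.Agent.H91.Borsuk
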