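import Pool.Agent.H91.Borsuk.Faces

/-! # Tucker's lemma on the grid cube -/

set_option autoImplicit false

namespace Pool.Agent.H91.Borsuk

open Finset

variable {n : ℕ}

theorem mem_Vs {M : ℕ} {s : Fin n → Option Bool} {v : Fin n → ℕ} :
    v ∈ Vs M s ↔ ∀ j, v j ∈ rg M (s j) := by
  unfold Vs; rw [Fintype.mem_piFinset]

theorem anti_top_mem {M : ℕ} {s : Fin n → Option Bool} {v : Fin n → ℕ} (hv : v ∈ Vs M s)
    {l : List (Fin n)} (hl : l ∈ ords (fr s)) : anti M (top v l) ∈ Vs M (opp s) := by
  obtain ⟨h1, h2⟩ := mem_ords.mp hl
  rw [mem_Vs] at hv ⊢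
  intro j
  have hj := hv j
  have hjl : j ∈ l ↔ s j = none := by rw [h2]; simp [fr]
  simp only [anti, top_apply v l h1, opp]
  match h : s j with
  | none =>
    rw [h] at hj
    simp only [rg, Finset.mem_range, Option.map_none] at hj ⊢
    rw [if_pos (hjl.mpr h)]
    omega
  | some true =>
    rw [h] at hj
    simp only [rg, Finset.mem_singleton, Option.map_some, Bool.not_true] at hj ⊢
    omega
  | some false =>
    rw [h] at hj
    have hnot : j ∉ l := by rw [hjl, h]; simp
    simp only [rg, Finset.mem_singleton, Option.map_some, Bool.not_false] at hj ⊢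
    rw [if_neg hnot, hj]
    omega

theorem anti_top_anti_top {M : ℕ} {s : Fin n → Option Bool} {v : Fin n → ℕ} (hv : v ∈ Vs M s)
    {l : List (Fin n)} (hl : l ∈ ords (fr s)) : anti M (top (anti M (top v l)) l) = v := by
  obtain ⟨h1, h2⟩ := mem_ords.mp hl
  rw [mem_Vs] at hv
  ext j
  have hj := hv j
  have hjl : j ∈ l ↔ s j = none := by rw [h2]; simp [fr]
  simp only [anti, top_apply _ l h1]
  match h : s j with
  | none =>
    rw [h] at hj
    simp only [rg, Finset.mem_range] at hj
    rw [if_pos (hjl.mpr h)]
    omega
  | some true =>
    rw [h] at hj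
    have hnot : j ∉ l := by rw [hjl, h]; simp
    simp only [rg, Finset.mem_singleton] at hj
    rw [if_neg hnot, hj]
    omega
  | some false =>
    rw [h] at hj
    have hnot : j ∉ l := by rw [hjl, h]; simp
    simp only [rg, Finset.mem_singleton] at hj
    rw [if_neg hnot, hj]
    omega

/-- hypotheses on the labelling. -/
structure Good (lab : (Fin n → ℕ) → ℕ) (M : ℕ) : Prop where
  anti : ∀ w, (∀ j, w j ≤ M) → (∃ j, w j = 0 ∨ w j = M) → lab (anti M w) = comp (lab w)
  adj : ∀ u w, (∀ j, u j ≤ M) → (∀ j, w j ≤ M) → (∀ j, u j ≤ w j + 1 ∧ w j ≤ u j + 1) →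
    lab u / 2 = lab w / 2 → lab u = lab w

theorem le_M_of_mem {M : ℕ} {s : Fin n → Option Bool} {v : Fin n → ℕ} (hv : v ∈ Vs M s)
    {l : List (Fin n)} (hl : l ∈ ords (fr s)) {w : Fin n → ℕ} (hw : w ≤ top v l) (j : Fin n) :
    w j ≤ M := by
  obtain ⟨h1, h2⟩ := mem_ords.mp hl
  rw [mem_Vs] at hv
  have hj := hv j
  have hjl : j ∈ l ↔ s j = none := by rw [h2]; simp [fr]
  have hwj : w j ≤ top v l j := hw j
  rw [top_apply _ _ h1] at hwj
  match h : s j with
  | none =>
    rw [h] at hj
    simp only [rg, Finset.mem_range] at hj
    rw [if_pos (hjl.mpr h)] at hwj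
    omega
  | some true =>
    rw [h] at hj
    have hnot : j ∉ l := by rw [hjl, h]; simp
    simp only [rg, Finset.mem_singleton] at hj
    rw [if_neg hnot, hj] at hwj
    omega
  | some false =>
    rw [h] at hj
    have hnot : j ∉ l := by rw [hjl, h]; simp
    simp only [rg, Finset.mem_singleton] at hj
    rw [if_neg hnot, hj] at hwj
    omega

theorem NC_ch {lab : (Fin n → ℕ) → ℕ} {M : ℕ} (hg : Good lab M) {s : Fin n → Option Bool}
    {v : Fin n → ℕ} (hv : v ∈ Vs M s) {l : List (Fin n)} (hl : l ∈ ords (fr s)) :
    NC ((ch lab v l : List ℕ) : Multiset ℕ) := by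
  obtain ⟨h1, h2⟩ := mem_ords.mp hl
  intro a ha b hb hab
  rw [Multiset.mem_coe] at ha hb
  obtain ⟨u, hu1, hu2, rfl⟩ := mem_ch lab v l a ha
  obtain ⟨w, hw1, hw2, rfl⟩ := mem_ch lab v l b hb
  refine hg.adj u w (le_M_of_mem hv hl hu2) (le_M_of_mem hv hl hw2) (fun j => ?_) hab
  have a1 : v j ≤ u j := hu1 j
  have a2 : u j ≤ top v l j := hu2 j
  have a3 : v j ≤ w j := hw1 j
  have a4 : w j ≤ top v l j := hw2 j
  rw [top_apply _ _ h1] at a2 a4
  split_ifs at a2 a4 <;> omega

theorem N_opp {lab : (Fin n → ℕ) → ℕ} {M : ℕ} (hg : Good lab M) (k : ZMod 2)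
    (s : Fin n → Option Bool) (hs : ∃ j, s j ≠ none) :
    N lab M k (opp s) = N lab M (k + 1) s := by
  unfold N
  rw [fr_opp, Finset.sum_comm, Finset.sum_comm (s := Vs M s), ← sum_ords_reverse]
  refine Finset.sum_congr rfl fun l hl => ?_
  obtain ⟨h1, h2⟩ := mem_ords.mp hl
  symm
  refine Finset.sum_bij' (fun v _ => anti M (top v l)) (fun v _ => anti M (top v l)) ?_ ?_ ?_ ?_ ?_
  · intro v hv
    exact anti_top_mem hv hl
  · intro v hv
    have := anti_top_mem hv (by rw [fr_opp]; exact hl : l ∈ ords (fr (opp s)))
    rwa [opp_opp] at this
  · intro v hv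
    exact anti_top_anti_top hv hl
  · intro v hv
    exact anti_top_anti_top hv (by rw [fr_opp]; exact hl : l ∈ ords (fr (opp s)))
  · intro v hv
    obtain ⟨i, hi⟩ := hs
    rw [ch_reverse lab M v l h1]
    · rw [Multiset.coe_reverse, ← Multiset.map_coe, phi_map_comp k (NC_ch hg hv hl)]
    · intro j hj
      have h3 := (mem_Vs.mp hv) j
      have h4 : s j = none := by
        have := (h2 j).mp hj
        simpa [fr] using this
      rw [h4] at h3
      simp only [rg, Finset.mem_range] at h3
      omega
    · intro w hw1 hw2
      refine hg.anti w (le_M_of_mem hv hl hw2) ⟨i, ?_⟩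
      have h3 := (mem_Vs.mp hv) i
      have hnot : i ∉ l := by
        rw [h2]; simp [fr, hi]
      have a1 : v i ≤ w i := hw1 i
      have a2 : w i ≤ top v l i := hw2 i
      rw [top_apply _ _ h1, if_neg hnot] at a2
      have h5 : w i = v i := by omega
      match h : s i with
      | none => exact absurd h hi
      | some true =>
        rw [h] at h3
        simp only [rg, Finset.mem_singleton] at h3
        right; omega
      | some false =>
        rw [h] at h3
        simp only [rg, Finset.mem_singleton] at h3
        left; omega

/-! ## The sign pattern sum -/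

/-- signs of the fixed coordinates along the list `J`. -/
def Ls (s : Fin n → Option Bool) (J : List (Fin n)) : List ℕ :=
  J.filterMap (fun j => (s j).map Bool.toNat)

theorem Ls_update_not_mem (s : Fin n → Option Bool) (J : List (Fin n)) (j : Fin n) (b : Option Bool)
    (hj : j ∉ J) : Ls (Function.update s j b) J = Ls s J := by
  unfold Ls
  refine List.filterMap_congr fun i hi => ?_
  rw [Function.update_of_ne]
  rintro rfl
  exact hj hi

theorem sum_Ls (s : Fin n → Option Bool) (k : ZMod 2) (J : List (Fin n)) (hJ : J.Nodup) :
    ∑ j ∈ J.toFinset.filter (fun j => s j ≠ none), pa k (Ls (Function.update s j none) J)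
      = pa k (Ls s J) + pa (k + 1) (Ls s J) := by
  induction J generalizing k with
  | nil => simp [Ls, pa, zadd]
  | cons a J ih =>
    rw [List.nodup_cons] at hJ
    rw [List.toFinset_cons]
    have haJ : a ∉ J.toFinset := by rw [List.mem_toFinset]; exact hJ.1
    match h : s a with
    | none =>
      rw [Finset.filter_insert, if_neg (by simp [h])]
      have h1 : Ls s (a :: J) = Ls s J := by simp [Ls, h]
      rw [h1, ← ih k hJ.2]
      refine Finset.sum_congr rfl fun j hj => ?_
      have hja : j ≠ a := by
        rintro rfl
        exact haJ (Finset.mem_filter.mp hj).1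
      congr 1
      have : Function.update s j none a = none := by
        rw [Function.update_of_ne hja.symm, h]
      simp [Ls, this]
    | some b =>
      rw [Finset.filter_insert, if_pos (by simp [h]), Finset.sum_insert
        (fun h' => haJ (Finset.mem_filter.mp h').1)]
      have h1 : Ls s (a :: J) = b.toNat :: Ls s J := by simp [Ls, h]
      have h2 : Ls (Function.update s a none) (a :: J) = Ls s J := by
        rw [← Ls_update_not_mem s J a none hJ.1]
        simp [Ls]
      have h3 : ∀ j ∈ J.toFinset.filter (fun j => s j ≠ none),
          pa k (Ls (Function.update s j none) (a :: J))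
          = ((b.toNat : ZMod 2) + k) * pa (k + 1) (Ls (Function.update s j none) J) := by
        intro j hj
        have hja : j ≠ a := by
          rintro rfl
          exact haJ (Finset.mem_filter.mp hj).1
        have h4 : Function.update s j none a = some b := by
          rw [Function.update_of_ne hja.symm, h]
        have h5 : Ls (Function.update s j none) (a :: J)
            = b.toNat :: Ls (Function.update s j none) J := by
          simp [Ls, h4]
        rw [h5]
        rfl
      rw [h1, h2, Finset.sum_congr rfl h3, ← Finset.mul_sum, ih (k + 1) hJ.2]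
      simp only [pa, zadd11]
      ring

theorem Ls_opp (s : Fin n → Option Bool) (k : ZMod 2) (J : List (Fin n)) :
    pa k (Ls (opp s) J) = pa (k + 1) (Ls s J) := by
  induction J generalizing k with
  | nil => rfl
  | cons a J ih =>
    match h : s a with
    | none =>
      have h1 : Ls s (a :: J) = Ls s J := by simp [Ls, h]
      have h2 : Ls (opp s) (a :: J) = Ls (opp s) J := by simp [Ls, opp, h]
      rw [h1, h2, ih]
    | some b =>
      have h1 : Ls s (a :: J) = b.toNat :: Ls s J := by simp [Ls, h]
      have h2 : Ls (opp s) (a :: J) = (!b).toNat :: Ls (opp s) J := by simp [Ls, opp, h]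
      rw [h1, h2]
      simp only [pa, ih]
      have h3 : (((!b).toNat : ℕ) : ZMod 2) = (b.toNat : ZMod 2) + 1 := by
        cases b <;> simp [zadd]
      rw [h3]
      ring

/-- the coefficient of a face. -/
def A (k : ZMod 2) (s : Fin n → Option Bool) : ZMod 2 := pa k (Ls s (List.finRange n))

theorem A_opp (k : ZMod 2) (s : Fin n → Option Bool) : A k (opp s) = A (k + 1) s := Ls_opp s k _

theorem sum_A (k : ZMod 2) (s : Fin n → Option Bool) :
    ∑ j ∈ univ.filter (fun j => s j ≠ none), A k (Function.update s j none)
      = A k s + A (k + 1) s := by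
  have := sum_Ls s k (List.finRange n) (List.nodup_finRange n)
  rw [List.toFinset_finRange] at this
  exact this

theorem sum_full (k : ZMod 2) :
    ∑ s ∈ univ.filter (fun s : Fin n → Option Bool => fr s = ∅), A k s = 1 := by
  have h : ∀ (J : List (Fin n)), J.Nodup → ∀ (k : ZMod 2),
      ∑ s ∈ Fintype.piFinset (fun j : Fin n => if j ∈ J then ({some true, some false} : Finset (Option Bool))
        else {none}), pa k (Ls s J) = 1 := by
    intro J
    induction J with
    | nil =>
      intro _ k
      have : Fintype.piFinset (fun j : Fin n => if j ∈ ([] : List (Fin n)) then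
        ({some true, some false} : Finset (Option Bool)) else {none}) = {fun _ => none} := by
        ext s
        rw [Fintype.mem_piFinset, Finset.mem_singleton, funext_iff]
        simp
      rw [this]
      simp [Ls, pa]
    | cons a J ih =>
      intro hJ k
      rw [List.nodup_cons] at hJ
      have hset : (∑ s ∈ Fintype.piFinset (fun j : Fin n => if j ∈ (a :: J) then
        ({some true, some false} : Finset (Option Bool)) else {none}), pa k (Ls s (a :: J)))
        = ∑ p ∈ (Fintype.piFinset (fun j : Fin n => if j ∈ J then
        ({some true, some false} : Finset (Option Bool)) else {none})) ×ˢ (univ : Finset Bool),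
          pa k (Ls (Function.update p.1 a (some p.2)) (a :: J)) := by
        symm
        refine Finset.sum_bij' (fun p _ => Function.update p.1 a (some p.2))
          (fun s _ => (Function.update s a none, (s a).getD true)) ?_ ?_ ?_ ?_ ?_
        · rintro ⟨u, b⟩ hp
          simp only [Finset.mem_product, Fintype.mem_piFinset, Finset.mem_univ, and_true] at hp
          rw [Fintype.mem_piFinset]
          intro i
          by_cases hi : i = a
          · subst hi; cases b <;> simp
          · have := hp i
            simp only [List.mem_cons, hi, false_or, Function.update_of_ne hi]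
            exact this
        · intro s hs
          simp only [Finset.mem_product, Fintype.mem_piFinset, Finset.mem_univ, and_true] at hs ⊢
          intro i
          by_cases hi : i = a
          · subst hi; simp [hJ.1]
          · have := hs i
            simp only [List.mem_cons, hi, false_or] at this
            rw [Function.update_of_ne hi]
            exact this
        · rintro ⟨u, b⟩ hp
          simp only [Finset.mem_product, Fintype.mem_piFinset, Finset.mem_univ, and_true] at hp
          have hua : u a = none := by
            have := hp a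
            simpa [hJ.1] using this
          simp only [Function.update_idem, Function.update_self, Option.getD_some, Prod.mk.injEq,
            and_true]
          rw [← hua]
          exact Function.update_eq_self a u
        · intro s hs
          simp only [Fintype.mem_piFinset] at hs
          have hsa := hs a
          simp only [List.mem_cons, true_or, if_true, Finset.mem_insert, Finset.mem_singleton] at hsa
          simp only [Function.update_idem]
          rcases hsa with h | h
          · rw [h]
            simp only [Option.getD_some]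
            rw [← h]
            exact Function.update_eq_self a s
          · rw [h]
            simp only [Option.getD_some]
            rw [← h]
            exact Function.update_eq_self a s
        · intro p _
          rfl
      rw [hset, Finset.sum_product]
      have hin : ∀ u ∈ Fintype.piFinset (fun j : Fin n => if j ∈ J then
          ({some true, some false} : Finset (Option Bool)) else {none}),
          ∑ b : Bool, pa k (Ls (Function.update u a (some b)) (a :: J)) = pa (k + 1) (Ls u J) := by
        intro u _
        have h1 : ∀ b : Bool, Ls (Function.update u a (some b)) (a :: J) = b.toNat :: Ls u J := by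
          intro b
          rw [← Ls_update_not_mem u J a (some b) hJ.1]
          simp [Ls]
        simp only [h1, pa, Fintype.sum_bool]
        simp only [Bool.toNat_true, Bool.toNat_false, Nat.cast_one, Nat.cast_zero]
        have := zadd (k * pa (k + 1) (Ls u J))
        linear_combination this
      rw [Finset.sum_congr rfl hin]
      exact ih hJ.2 (k + 1)
  have h2 := h (List.finRange n) (List.nodup_finRange n) k
  rw [← h2]
  refine Finset.sum_congr ?_ fun s _ => rfl
  ext s
  simp only [Finset.mem_filter, Finset.mem_univ, true_and, Fintype.mem_piFinset,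
    List.mem_finRange, if_true, Finset.mem_insert, Finset.mem_singleton]
  constructor
  · intro hs j
    have hj : s j ≠ none := by
      intro hj
      have : j ∈ fr s := by simp [fr, hj]
      rw [hs] at this
      simp at this
    match h : s j with
    | none => exact absurd h hj
    | some true => simp
    | some false => simp
  · intro hs
    ext j
    simp only [fr, Finset.mem_filter, Finset.mem_univ, true_and, Finset.notMem_empty, iff_false]
    rcases hs j with h | h <;> rw [h] <;> simp

/-- **the number of alternating top-dimensional simplices is odd**. -/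
theorem odd_count {lab : (Fin n → ℕ) → ℕ} {M : ℕ} (hg : Good lab M) :
    N lab M 0 (fun _ => none) + N lab M 1 (fun _ => none) = 1 := by
  classical
  -- total sum
  have hI : ∀ s : Fin n → Option Bool, N lab M 0 s + N lab M 1 s
      = (∑ j ∈ fr s, ∑ b : Bool, N lab M 1 (Function.update s j (some b)))
        + (if fr s = ∅ then 1 else 0) := by
    intro s
    by_cases h : fr s = ∅
    · rw [if_pos h, N_full lab M s h, h]; simp
    · rw [if_neg h, add_zero, ← boundary lab M 1 s (Finset.nonempty_iff_ne_empty.mpr h)]
      have : (1 : ZMod 2) + 1 = 0 := rfl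
      rw [this, add_comm]
  have hT : ∑ s : Fin n → Option Bool, A 1 s * (N lab M 0 s + N lab M 1 s)
      = (∑ s : Fin n → Option Bool, ∑ j ∈ fr s, ∑ b : Bool,
          A 1 s * N lab M 1 (Function.update s j (some b))) + 1 := by
    have h1 : ∀ s : Fin n → Option Bool, A 1 s * (N lab M 0 s + N lab M 1 s)
        = (∑ j ∈ fr s, ∑ b : Bool, A 1 s * N lab M 1 (Function.update s j (some b)))
          + (if fr s = ∅ then A 1 s else 0) := by
      intro s
      rw [hI s, mul_add, Finset.mul_sum]
      simp only [Finset.mul_sum, mul_ite, mul_one, mul_zero]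
    rw [Finset.sum_congr rfl fun s _ => h1 s, Finset.sum_add_distrib, ← Finset.sum_filter, sum_full]
  have hS : (∑ s : Fin n → Option Bool, ∑ j ∈ fr s, ∑ b : Bool,
          A 1 s * N lab M 1 (Function.update s j (some b)))
      = ∑ s : Fin n → Option Bool, N lab M 1 s * (A 1 s + A 0 s) := by
    have h0 : ∀ s : Fin n → Option Bool, A 1 s + A 0 s = A 1 s + A (1 + 1) s := by
      intro s; rfl
    simp only [h0, ← sum_A, Finset.mul_sum]
    simp only [fr]
    rw [Finset.sum_sigma', Finset.sum_sigma', Finset.sum_sigma']
    refine Finset.sum_bij' (fun p _ => ⟨Function.update p.1.1 p.1.2 (some p.2), p.1.2⟩)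
      (fun q _ => ⟨⟨Function.update q.1 q.2 none, q.2⟩, (q.1 q.2).getD true⟩) ?_ ?_ ?_ ?_ ?_
    · rintro ⟨⟨s, j⟩, b⟩ _
      simp
    · rintro ⟨s, j⟩ _
      simp
    · rintro ⟨⟨s, j⟩, b⟩ h
      simp only [Finset.mem_product, Finset.mem_sigma, Finset.mem_univ, Finset.mem_filter,
        true_and, and_true] at h
      simp only [Function.update_idem, Function.update_self, Option.getD_some, Prod.mk.injEq,
        and_true, Sigma.mk.injEq, heq_eq_eq]
      rw [← h]
      exact Function.update_eq_self j s
    · rintro ⟨s, j⟩ h
      simp only [Finset.mem_sigma, Finset.mem_univ, Finset.mem_filter, true_and] at h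
      simp only [Function.update_idem, Sigma.mk.injEq, heq_eq_eq, and_true]
      match h' : s j with
      | none => exact absurd h' h
      | some b =>
        simp only [Option.getD_some]
        rw [← h']
        exact Function.update_eq_self j s
    · rintro ⟨⟨s, j⟩, b⟩ h
      simp only [Finset.mem_product, Finset.mem_sigma, Finset.mem_univ, Finset.mem_filter,
        true_and, and_true] at h
      simp only [Function.update_idem]
      have : Function.update s j none = s := by rw [← h]; exact Function.update_eq_self j s
      rw [this, mul_comm]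
  -- negation
  have hO : ∑ s : Fin n → Option Bool, N lab M 1 s * A 0 s
      = ∑ s : Fin n → Option Bool, N lab M 1 (opp s) * A 1 s := by
    refine Finset.sum_bij' (fun s _ => opp s) (fun s _ => opp s) ?_ ?_ ?_ ?_ ?_
    · intro s _; exact Finset.mem_univ _
    · intro s _; exact Finset.mem_univ _
    · intro s _; exact opp_opp s
    · intro s _; exact opp_opp s
    · intro s _
      rw [opp_opp, A_opp]
      rfl
  have hD : ∑ s : Fin n → Option Bool, N lab M 1 (opp s) * A 1 s
      = (∑ s : Fin n → Option Bool, N lab M 0 s * A 1 s)
        + (N lab M 0 (fun _ => none) + N lab M 1 (fun _ => none)) := by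
    have h1 : ∀ s : Fin n → Option Bool, N lab M 1 (opp s) * A 1 s
        = N lab M 0 s * A 1 s + (if s = fun _ => none then
          (N lab M 0 (fun _ => none) + N lab M 1 (fun _ => none)) else 0) := by
      intro s
      by_cases h : s = fun _ => none
      · subst h
        have h2 : opp (fun _ : Fin n => (none : Option Bool)) = fun _ => none := by
          ext j; simp [opp]
        have h3 : A 1 (fun _ : Fin n => (none : Option Bool)) = 1 := by
          simp [A, Ls, pa]
        rw [h2, h3, if_pos rfl]
        have := zadd (N lab M 0 (fun _ : Fin n => (none : Option Bool)))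
        linear_combination -this
      · rw [if_neg h, add_zero]
        have h2 : ∃ j, s j ≠ none := by
          by_contra hcon
          push Not at hcon
          exact h (funext hcon)
        rw [N_opp hg 1 s h2]
        rfl
    rw [Finset.sum_congr rfl fun s _ => h1 s, Finset.sum_add_distrib, Finset.sum_ite_eq']
    simp
  rw [hS] at hT
  have e1 : ∑ s : Fin n → Option Bool, A 1 s * (N lab M 0 s + N lab M 1 s)
      = (∑ s : Fin n → Option Bool, N lab M 0 s * A 1 s)
        + ∑ s : Fin n → Option Bool, N lab M 1 s * A 1 s := by
    rw [← Finset.sum_add_distrib]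
    refine Finset.sum_congr rfl fun s _ => by ring
  have e2 : ∑ s : Fin n → Option Bool, N lab M 1 s * (A 1 s + A 0 s)
      = (∑ s : Fin n → Option Bool, N lab M 1 s * A 1 s)
        + ∑ s : Fin n → Option Bool, N lab M 1 s * A 0 s := by
    rw [← Finset.sum_add_distrib]
    refine Finset.sum_congr rfl fun s _ => by ring
  rw [e1, e2, hO, hD] at hT
  have h2 : (2 : ZMod 2) = 0 := rfl
  linear_combination (-1 : ZMod 2) * hT - h2

/-- **Tucker's lemma** for the grid cube `{0..M}^n`. -/
theorem tucker {lab : (Fin n → ℕ) → ℕ} {M : ℕ} (hg : Good lab M) (hlt : ∀ w, lab w / 2 < n) :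
    False := by
  classical
  have h1 := odd_count hg
  obtain ⟨k, hk⟩ : ∃ k : ZMod 2, N lab M k (fun _ => none) ≠ 0 := by
    by_contra hcon
    push Not at hcon
    rw [hcon, hcon, add_zero] at h1
    exact absurd h1 (by decide)
  obtain ⟨v, hv, h2⟩ := Finset.exists_ne_zero_of_sum_ne_zero hk
  obtain ⟨l, hl, h3⟩ := Finset.exists_ne_zero_of_sum_ne_zero h2
  have hnd : ((ch lab v l : List ℕ) : Multiset ℕ).Nodup := by
    by_contra hcon
    exact h3 (by unfold phi; rw [if_neg hcon])
  have hNC := NC_ch hg hv hl
  have hlen : (ch lab v l).length = n + 1 := by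
    rw [length_ch, length_of_mem_ords hl]
    have : fr (fun _ : Fin n => (none : Option Bool)) = univ := by ext j; simp [fr]
    rw [this, Finset.card_univ, Fintype.card_fin]
  rw [Multiset.coe_nodup] at hnd
  have hinj : ((ch lab v l).map (fun c => c / 2)).Nodup := by
    refine List.Nodup.map_on ?_ hnd
    intro a ha b hb hab
    exact hNC a ha b hb hab
  have hsub : ((ch lab v l).map (fun c => c / 2)).toFinset ⊆ range n := by
    intro c hc
    rw [List.mem_toFinset, List.mem_map] at hc
    obtain ⟨a, ha, rfl⟩ := hc
    obtain ⟨w, -, -, rfl⟩ := mem_ch lab v l a ha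
    rw [Finset.mem_range]
    exact hlt w
  have hcard := Finset.card_le_card hsub
  rw [List.toFinset_card_of_nodup hinj, List.length_map, hlen, Finset.card_range] at hcard
  omega

end Pool.Agent.H91.Borsuk
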